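import Pool.Agent.Helper46.R7.CERTT

/-! Row BNDT (helper46). -/

set_option autoImplicit false

namespace Pool.Helper66.R7

open Pool.Helper17.RS (MM Cong Box yy)

namespace S46

theorem MM_le : (4 : ℤ) ≤ MM := by
  unfold MM
  have h := Nat.self_le_factorial 1000
  have h2 : 4 ≤ Nat.factorial 1000 := le_trans (by norm_num) h
  exact_mod_cast h2

theorem cong_yy (b : Fin 3 → ℤ) (t : Fin 3 → ℕ) : Cong b (yy b t) := by
  intro i
  exact ⟨(t i : ℤ), by unfold yy; ring⟩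

theorem GA_bd {U V W X : ℤ} (hU : 0 ≤ U) (hU' : U ≤ X) (hV : 0 ≤ V) (hV' : V ≤ X) (hW : 0 ≤ W)
    (hW' : W ≤ X) : |GA U V W| ≤ 100000000000 * X ^ 2 := by
  have hX : 0 ≤ X := hU.trans hU'
  have p2 : ∀ x y : ℤ, 0 ≤ x → x ≤ X → 0 ≤ y → y ≤ X → 0 ≤ x * y ∧ x * y ≤ X ^ 2 := by
    intro x y hx hx' hy hy'
    refine ⟨mul_nonneg hx hy, ?_⟩
    have h := mul_le_mul hx' hy' hy hX
    rw [← sq] at h
    exact h
  have a1 := p2 U U hU hU' hU hU'
  have a2 := p2 U V hU hU' hV hV'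
  have a3 := p2 U W hU hU' hW hW'
  have a4 := p2 V V hV hV' hV hV'
  have a5 := p2 V W hV hV' hW hW'
  have a6 := p2 W W hW hW' hW hW'
  have hX2 : 0 ≤ X ^ 2 := pow_nonneg hX 2
  have e : GA U V W = 29318881284 * (U * U) - 1596793968 * (U * V) - 315775152 * (U * W) +
      31080259 * (V * V) + 356202 * (V * W) + 2669139 * (W * W) := by
    unfold GA
    ring
  rw [e]
  refine abs_le.2 ⟨?_, ?_⟩ <;> linarith

theorem GB_bd {U V W X : ℤ} (hU : 0 ≤ U) (hU' : U ≤ X) (hV : 0 ≤ V) (hV' : V ≤ X) (hW : 0 ≤ W)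
    (hW' : W ≤ X) : |GB U V W| ≤ 10000000000000000 * X ^ 3 := by
  have hX : 0 ≤ X := hU.trans hU'
  have p3 : ∀ x y z : ℤ, 0 ≤ x → x ≤ X → 0 ≤ y → y ≤ X → 0 ≤ z → z ≤ X →
      0 ≤ x * y * z ∧ x * y * z ≤ X ^ 3 := by
    intro x y z hx hx' hy hy' hz hz'
    refine ⟨mul_nonneg (mul_nonneg hx hy) hz, ?_⟩
    have h := mul_le_mul (mul_le_mul hx' hy' hy hX) hz' hz (mul_nonneg hX hX)
    have e : X * X * X = X ^ 3 := by ring
    rw [e] at h
    exact h
  have a1 := p3 U U U hU hU' hU hU' hU hU'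
  have a2 := p3 U U V hU hU' hU hU' hV hV'
  have a3 := p3 U U W hU hU' hU hU' hW hW'
  have a4 := p3 U V V hU hU' hV hV' hV hV'
  have a5 := p3 U V W hU hU' hV hV' hW hW'
  have a6 := p3 U W W hU hU' hW hW' hW hW'
  have a7 := p3 V V V hV hV' hV hV' hV hV'
  have a8 := p3 V V W hV hV' hV hV' hW hW'
  have a9 := p3 V W W hV hV' hW hW' hW hW'
  have a10 := p3 W W W hW hW' hW hW' hW hW'
  have hX3 : 0 ≤ X ^ 3 := pow_nonneg hX 3
  have e : GB U V W = 1735196809682952 * (U * U * U) + 80585713044144 * (U * U * V) +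
      46784697298416 * (U * U * W) - 9412155995319 * (U * V * V) -
      1681018456194 * (U * V * W) - 740630196999 * (U * W * W) + 159870768848 * (V * V * V) +
      33082927416 * (V * V * W) + 1868305824 * (V * W * W) + 4354701912 * (W * W * W) := by
    unfold GB
    ring
  rw [e]
  refine abs_le.2 ⟨?_, ?_⟩ <;> linarith

end S46

open S46 in
/-- row BNDT -/
theorem st_BNDT : ST_BNDT := by
  have hM := MM_le
  have hM1 : 1 ≤ MM := by linarith
  refine ⟨10000000000000000 * MM ^ 6, ?_, ?_⟩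
  · have : 1 ≤ MM ^ 6 := one_le_pow₀ hM1
    linarith
  intro N hN t ht
  have hN' : (1 : ℤ) ≤ (N : ℤ) := by exact_mod_cast hN
  have htb : ∀ i, 0 ≤ (t i : ℤ) ∧ (t i : ℤ) ≤ (N : ℤ) - 1 := by
    intro i
    unfold Box at ht
    rw [Fintype.mem_piFinset] at ht
    have h := Finset.mem_range.mp (ht i)
    omega
  set Z : ℤ := MM * N with hZ
  have hb : ∀ i, 0 < tb i ∧ tb i ≤ 4 := by
    intro i
    fin_cases i <;> decide
  have hy : ∀ i, 0 < yy tb t i ∧ yy tb t i ≤ Z := by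
    intro i
    have h1 := htb i
    have h2 := hb i
    have h3 : 0 ≤ MM * (t i : ℤ) := mul_nonneg (by linarith) h1.1
    have h4 : MM * (t i : ℤ) ≤ MM * ((N : ℤ) - 1) := mul_le_mul_of_nonneg_left h1.2 (by linarith)
    have h5 : MM * ((N : ℤ) - 1) = Z - MM := by rw [hZ]; ring
    unfold yy
    constructor <;> linarith
  have hs : ∀ i, 0 ≤ yy tb t i ^ 2 ∧ yy tb t i ^ 2 ≤ Z ^ 2 := fun i =>
    ⟨sq_nonneg _, pow_le_pow_left₀ (hy i).1.le (hy i).2 2⟩
  obtain ⟨e1, e2, -, -⟩ := vals (cong_yy tb t)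
  have hZ0 : 0 ≤ Z := (hy 0).1.le.trans (hy 0).2
  have hpw : ∀ (K : ℤ) (j : ℕ), 0 ≤ K → K ≤ 10000000000000000 → j ≤ 6 →
      K * Z ^ j ≤ 10000000000000000 * MM ^ 6 * (N : ℤ) ^ j := by
    intro K j hK0 hK hj
    rw [hZ, mul_pow, ← mul_assoc]
    refine mul_le_mul_of_nonneg_right ?_ (pow_nonneg (by linarith) j)
    exact mul_le_mul hK (pow_le_pow_right₀ hM1 hj) (pow_nonneg (by linarith) j) (by norm_num)
  refine ⟨?_, ?_, ?_⟩
  · intro i
    refine ⟨(hy i).1, ?_⟩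
    have h1 := hpw 1 1 (by norm_num) (by norm_num) (by norm_num)
    rw [pow_one, pow_one, one_mul] at h1
    exact (hy i).2.trans h1
  · have h1 := GA_bd (hs 0).1 (hs 0).2 (hs 1).1 (hs 1).2 (hs 2).1 (hs 2).2
    have h2 := hpw 100000000000 4 (by norm_num) (by norm_num) (by norm_num)
    have h3 : |15552 * tA (yy tb t)| ≤ 100000000000 * Z ^ 4 := by
      rw [e1, abs_neg]
      have e : (Z ^ 2) ^ 2 = Z ^ 4 := by ring
      rw [e] at h1
      exact h1
    rw [abs_mul] at h3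
    have h4 : |(15552 : ℤ)| = 15552 := by norm_num
    rw [h4] at h3
    have h5 := abs_nonneg (tA (yy tb t))
    linarith
  · have h1 := GB_bd (hs 0).1 (hs 0).2 (hs 1).1 (hs 1).2 (hs 2).1 (hs 2).2
    have h2 := hpw 10000000000000000 6 (by norm_num) (by norm_num) (by norm_num)
    have h3 : |5038848 * tB (yy tb t)| ≤ 10000000000000000 * Z ^ 6 := by
      rw [e2]
      have e : (Z ^ 2) ^ 3 = Z ^ 6 := by ring
      rw [e] at h1
      exact h1
    rw [abs_mul] at h3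
    have h4 : |(5038848 : ℤ)| = 5038848 := by norm_num
    rw [h4] at h3
    have h5 := abs_nonneg (tB (yy tb t))
    linarith

end Pool.Helper66.R7
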