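import Pool.Agent.Helper66.R7.Sheet

/-! Row CERTT (helper46), after Helper46/RS/CERTS.lean. -/

set_option autoImplicit false

namespace Pool.Helper66.R7

namespace S46

open Pool.Agent.Helper97.RK (cur)
open Pool.Helper17.RS (MM Cong Box yy)

theorem cz {M : ℤ} (q : ℕ) (hq : (q : ℤ) ∣ M) {a b : ℤ} (h : a ≡ b [ZMOD M]) :
    (a : ZMod q) = (b : ZMod q) :=
  (ZMod.intCast_eq_intCast_iff a b q).2 (h.of_dvd hq)

/-- `1000! / 5038848` -/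
def MC : ℤ := ((Nat.factorial 1000 / 5038848 : ℕ) : ℤ)

theorem dbase : 5038848 ∣ Nat.factorial 21 := by decide

theorem dbase' : 5038848 ∣ Nat.factorial 1000 :=
  dbase.trans (Nat.factorial_dvd_factorial (by norm_num))

theorem MM_eq : MM = 5038848 * MC := by
  unfold MM MC
  have h3 : ∀ n : ℕ, 5038848 ∣ n → (n : ℤ) = 5038848 * ((n / 5038848 : ℕ) : ℤ) := by
    intro n hn
    omega
  exact h3 _ dbase'

theorem dvd_MC {q : ℕ} (hq : q.Prime) (hq1 : q ≤ 1000) : (q : ℤ) ∣ MC := by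
  have h : 5038848 * q ∣ Nat.factorial 1000 := by
    by_cases h979 : q ≤ 979
    · have h1 : Nat.factorial 21 * Nat.factorial 979 ∣ Nat.factorial (21 + 979) :=
        Nat.factorial_mul_factorial_dvd_factorial_add 21 979
      exact (Nat.mul_dvd_mul dbase (Nat.dvd_factorial hq.pos h979)).trans h1
    · refine Nat.Coprime.mul_dvd_of_dvd_of_dvd ?_ dbase' (Nat.dvd_factorial hq.pos hq1)
      have h2 : Nat.Coprime (2 ^ 8) q :=
        Nat.Coprime.pow_left 8 ((Nat.coprime_primes Nat.prime_two hq).2 (by omega))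
      have h3 : Nat.Coprime (3 ^ 9) q :=
        Nat.Coprime.pow_left 9 ((Nat.coprime_primes Nat.prime_three hq).2 (by omega))
      exact Nat.Coprime.mul_left h2 h3
  unfold MC
  have h5 : q ∣ Nat.factorial 1000 / 5038848 := by
    obtain ⟨k, hk⟩ := h
    exact ⟨k, by rw [hk, mul_assoc, Nat.mul_div_cancel_left _ (by norm_num)]⟩
  exact_mod_cast h5

theorem divd {d e P x : ℤ} (hd : 0 < d) (hde : d * e = 5038848) (h : P ≡ d * x [ZMOD MM]) :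
    d * (P / d) = P ∧ P / d ≡ x [ZMOD MC] := by
  obtain ⟨k, hk⟩ := Int.modEq_iff_dvd.1 h.symm
  rw [MM_eq, ← hde] at hk
  have e1 : P = d * (x + e * (MC * k)) := by linear_combination hk
  have e2 : P / d = x + e * (MC * k) := by
    rw [e1, Int.mul_ediv_cancel_left _ hd.ne']
  refine ⟨by rw [e2]; exact e1.symm, ?_⟩
  rw [e2]
  exact (Int.modEq_iff_dvd.2 ⟨e * k, by ring⟩).symm

/-- `216` times the abscissas -/
def PP (u v w : ℤ) : Fin 7 → ℤ :=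
  ![2 * (20097 * u ^ 2 - 3164 * v ^ 2 + 792 * w ^ 2),
    2 * (-6111 * u ^ 2 + 8820 * u * v - 3780 * u * w + 1561 * v ^ 2 - 630 * v * w + 729 * w ^ 2),
    2 * (-103455 * u ^ 2 + 20196 * u * v + 13068 * u * w + 4801 * v ^ 2 + 2970 * v * w +
      1089 * w ^ 2),
    -227502 * u ^ 2 + 10296 * u * v + 4157 * v ^ 2 + 1683 * w ^ 2,
    2 * (-6111 * u ^ 2 - 8820 * u * v - 3780 * u * w + 1561 * v ^ 2 + 630 * v * w + 729 * w ^ 2),
    33858 * u ^ 2 + 14256 * u * v - 3763 * v ^ 2 + 1683 * w ^ 2,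
    2 * (20097 * u ^ 2 + 2128 * v ^ 2 + 792 * w ^ 2)]

/-- the abscissas at `(4, 3, 1)` -/
def XX : Fin 7 → ℤ := ![2721, 54, -12106, -16099, -1871, 3151, 3162]

theorem ident (u v w : ℤ) (i : Fin 7) : ∃ Q : ℤ,
    486 * Q ^ 2 = PP u v w i ^ 3 - 3 * GA (u ^ 2) (v ^ 2) (w ^ 2) * PP u v w i +
      2 * GB (u ^ 2) (v ^ 2) (w ^ 2) := by
  obtain ⟨h1, h2, h3, h4, h5, h6, h7⟩ := chk_pts u v w
  fin_cases i
  · exact ⟨_, h1 _ _ ⟨rfl, rfl⟩⟩
  · exact ⟨_, h2 _ _ ⟨rfl, rfl⟩⟩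
  · exact ⟨_, h3 _ _ ⟨rfl, rfl⟩⟩
  · exact ⟨_, h4 _ _ ⟨rfl, rfl⟩⟩
  · exact ⟨_, h5 _ _ ⟨rfl, rfl⟩⟩
  · exact ⟨_, h6 _ _ ⟨rfl, rfl⟩⟩
  · exact ⟨_, h7 _ _ ⟨rfl, rfl⟩⟩

theorem onc {F G A B P X : ℤ} (hX : 216 * X = P) (hA : 15552 * A = -F) (hB : 5038848 * B = G)
    (h : ∃ Q : ℤ, 486 * Q ^ 2 = P ^ 3 - 3 * F * P + 2 * G) :
    ∃ Y : ℤ, Y ^ 2 = X ^ 3 + A * X + B := by
  obtain ⟨Q, h⟩ := h
  have h1 : 486 * Q ^ 2 = 486 * (144 ^ 2 * (X ^ 3 + A * X + B)) := by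
    rw [h, ← hX, ← hB]
    linear_combination (-648 * X) * hA
  have h2 : Q ^ 2 = 144 ^ 2 * (X ^ 3 + A * X + B) := by linarith
  have h3 : (144 : ℤ) ∣ Q := (Int.pow_dvd_pow_iff (by norm_num : (2 : ℕ) ≠ 0)).1 ⟨_, h2⟩
  obtain ⟨Y, rfl⟩ := h3
  refine ⟨Y, ?_⟩
  have h4 : 144 ^ 2 * Y ^ 2 = 144 ^ 2 * (X ^ 3 + A * X + B) := by rw [← h2]; ring
  linarith

theorem GA_mod {M U V W U' V' W' : ℤ} (hU : U ≡ U' [ZMOD M]) (hV : V ≡ V' [ZMOD M])
    (hW : W ≡ W' [ZMOD M]) : GA U V W ≡ GA U' V' W' [ZMOD M] := by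
  have r : ∀ x : ℤ, x ≡ x [ZMOD M] := Int.ModEq.refl
  unfold GA
  exact ((((((r _).mul (hU.pow 2)).sub (((r _).mul hU).mul hV)).sub
    (((r _).mul hU).mul hW)).add ((r _).mul (hV.pow 2))).add (((r _).mul hV).mul hW)).add
    ((r _).mul (hW.pow 2))

theorem GB_mod {M U V W U' V' W' : ℤ} (hU : U ≡ U' [ZMOD M]) (hV : V ≡ V' [ZMOD M])
    (hW : W ≡ W' [ZMOD M]) : GB U V W ≡ GB U' V' W' [ZMOD M] := by
  have r : ∀ x : ℤ, x ≡ x [ZMOD M] := Int.ModEq.refl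
  unfold GB
  exact ((((((((((r _).mul (hU.pow 3)).add (((r _).mul (hU.pow 2)).mul hV)).add
    (((r _).mul (hU.pow 2)).mul hW)).sub (((r _).mul hU).mul (hV.pow 2))).sub
    ((((r _).mul hU).mul hV).mul hW)).sub (((r _).mul hU).mul (hW.pow 2))).add
    ((r _).mul (hV.pow 3))).add (((r _).mul (hV.pow 2)).mul hW)).add
    (((r _).mul hV).mul (hW.pow 2))).add ((r _).mul (hW.pow 3))

theorem PP_mod {M u v w : ℤ} (hu : u ≡ 4 [ZMOD M]) (hv : v ≡ 3 [ZMOD M])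
    (hw : w ≡ 1 [ZMOD M]) (i : Fin 7) : PP u v w i ≡ PP 4 3 1 i [ZMOD M] := by
  have r : ∀ x : ℤ, x ≡ x [ZMOD M] := Int.ModEq.refl
  fin_cases i
  · exact (r 2).mul ((((r 20097).mul (hu.pow 2)).sub ((r 3164).mul (hv.pow 2))).add
      ((r 792).mul (hw.pow 2)))
  · exact (r 2).mul (((((((r (-6111)).mul (hu.pow 2)).add (((r 8820).mul hu).mul hv)).sub
      (((r 3780).mul hu).mul hw)).add ((r 1561).mul (hv.pow 2))).sub
      (((r 630).mul hv).mul hw)).add ((r 729).mul (hw.pow 2)))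
  · exact (r 2).mul (((((((r (-103455)).mul (hu.pow 2)).add (((r 20196).mul hu).mul hv)).add
      (((r 13068).mul hu).mul hw)).add ((r 4801).mul (hv.pow 2))).add
      (((r 2970).mul hv).mul hw)).add ((r 1089).mul (hw.pow 2)))
  · exact ((((r (-227502)).mul (hu.pow 2)).add (((r 10296).mul hu).mul hv)).add
      ((r 4157).mul (hv.pow 2))).add ((r 1683).mul (hw.pow 2))
  · exact (r 2).mul (((((((r (-6111)).mul (hu.pow 2)).sub (((r 8820).mul hu).mul hv)).sub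
      (((r 3780).mul hu).mul hw)).add ((r 1561).mul (hv.pow 2))).add
      (((r 630).mul hv).mul hw)).add ((r 729).mul (hw.pow 2)))
  · exact ((((r 33858).mul (hu.pow 2)).add (((r 14256).mul hu).mul hv)).sub
      ((r 3763).mul (hv.pow 2))).add ((r 1683).mul (hw.pow 2))
  · exact (r 2).mul ((((r 20097).mul (hu.pow 2)).add ((r 2128).mul (hv.pow 2))).add
      ((r 792).mul (hw.pow 2)))

theorem PP_val (i : Fin 7) : PP 4 3 1 i = 216 * XX i := by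
  revert i
  decide

theorem dec7 : ∀ S : Finset (Fin 7), S.Nonempty →
    ¬ IsSquare (∏ i ∈ S, ((XX i - 12 : ℤ) : ZMod 13)) ∨
    ¬ IsSquare (∏ i ∈ S, ((XX i - 5 : ℤ) : ZMod 17)) ∨
    ¬ IsSquare (∏ i ∈ S, ((XX i - 11 : ℤ) : ZMod 17)) ∨
    ¬ IsSquare (∏ i ∈ S, ((XX i - 17 : ℤ) : ZMod 19)) ∨
    ¬ IsSquare (∏ i ∈ S, ((XX i - 28 : ℤ) : ZMod 29)) ∨
    ¬ IsSquare (∏ i ∈ S, ((XX i - 15 : ℤ) : ZMod 37)) ∨
    ¬ IsSquare (∏ i ∈ S, ((XX i - 0 : ℤ) : ZMod 41)) := by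
  decide +kernel

theorem noroot (t : ZMod 23) :
    t ^ 3 + ((-467667583 : ℤ) : ZMod 23) * t + ((1447291062082 : ℤ) : ZMod 23) ≠ 0 := by
  revert t
  decide

theorem step (n : ℕ) (A B : ℤ) (x b : Fin n → ℤ) (hA : A ≡ -467667583 [ZMOD MC])
    (hB : B ≡ 1447291062082 [ZMOD MC]) (hx : ∀ i, x i ≡ b i [ZMOD MC]) (S : Finset (Fin n))
    (q : ℕ) (e : ℤ) (hqp : q.Prime) (hq : (q : ℤ) ∣ MC)
    (h1 : ((e ^ 3 + (-467667583) * e + 1447291062082 : ℤ) : ZMod q) = 0)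
    (h2 : ((3 * e ^ 2 + (-467667583) : ℤ) : ZMod q) ≠ 0)
    (h3 : ¬ IsSquare (∏ i ∈ S, ((b i - e : ℤ) : ZMod q))) :
    ∃ (q : ℕ) (e : ℤ), q.Prime ∧
      ((e ^ 3 + A * e + B : ℤ) : ZMod q) = 0 ∧ ((3 * e ^ 2 + A : ℤ) : ZMod q) ≠ 0 ∧
      ¬ IsSquare (∏ i ∈ S, ((x i - e : ℤ) : ZMod q)) := by
  refine ⟨q, e, hqp, ?_, ?_, ?_⟩
  · rw [← h1]
    exact cz q hq (((Int.ModEq.refl (e ^ 3)).add (hA.mul (Int.ModEq.refl e))).add hB)
  · intro h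
    apply h2
    rw [← h]
    exact cz q hq (((Int.ModEq.refl (3 * e ^ 2)).add hA).symm)
  · intro h
    apply h3
    refine (congrArg IsSquare ?_).mp h
    apply Finset.prod_congr rfl
    intro i _
    exact cz q hq ((hx i).sub (Int.ModEq.refl e))

theorem stepAll (n : ℕ) (A B : ℤ) (x b : Fin n → ℤ) (hA : A ≡ -467667583 [ZMOD MC])
    (hB : B ≡ 1447291062082 [ZMOD MC]) (hx : ∀ i, x i ≡ b i [ZMOD MC]) (S : Finset (Fin n))
    (h : ¬ IsSquare (∏ i ∈ S, ((b i - 12 : ℤ) : ZMod 13)) ∨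
    ¬ IsSquare (∏ i ∈ S, ((b i - 5 : ℤ) : ZMod 17)) ∨
    ¬ IsSquare (∏ i ∈ S, ((b i - 11 : ℤ) : ZMod 17)) ∨
    ¬ IsSquare (∏ i ∈ S, ((b i - 17 : ℤ) : ZMod 19)) ∨
    ¬ IsSquare (∏ i ∈ S, ((b i - 28 : ℤ) : ZMod 29)) ∨
    ¬ IsSquare (∏ i ∈ S, ((b i - 15 : ℤ) : ZMod 37)) ∨
    ¬ IsSquare (∏ i ∈ S, ((b i - 0 : ℤ) : ZMod 41))) :
    ∃ (q : ℕ) (e : ℤ), q.Prime ∧
      ((e ^ 3 + A * e + B : ℤ) : ZMod q) = 0 ∧ ((3 * e ^ 2 + A : ℤ) : ZMod q) ≠ 0 ∧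
      ¬ IsSquare (∏ i ∈ S, ((x i - e : ℤ) : ZMod q)) := by
  rcases h with h | h | h | h | h | h | h
  · exact step n A B x b hA hB hx S 13 12 (by norm_num) (dvd_MC (by norm_num) (by norm_num))
      (by decide) (by decide) h
  · exact step n A B x b hA hB hx S 17 5 (by norm_num) (dvd_MC (by norm_num) (by norm_num))
      (by decide) (by decide) h
  · exact step n A B x b hA hB hx S 17 11 (by norm_num) (dvd_MC (by norm_num) (by norm_num))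
      (by decide) (by decide) h
  · exact step n A B x b hA hB hx S 19 17 (by norm_num) (dvd_MC (by norm_num) (by norm_num))
      (by decide) (by decide) h
  · exact step n A B x b hA hB hx S 29 28 (by norm_num) (dvd_MC (by norm_num) (by norm_num))
      (by decide) (by decide) h
  · exact step n A B x b hA hB hx S 37 15 (by norm_num) (dvd_MC (by norm_num) (by norm_num))
      (by decide) (by decide) h
  · exact step n A B x b hA hB hx S 41 0 (by norm_num) (dvd_MC (by norm_num) (by norm_num))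
      (by decide) (by decide) h

theorem cong0 {y : Fin 3 → ℤ} (h : Cong tb y) :
    y 0 ≡ 4 [ZMOD MM] ∧ y 1 ≡ 3 [ZMOD MM] ∧ y 2 ≡ 1 [ZMOD MM] :=
  ⟨(Int.modEq_iff_dvd.2 (h 0)).symm, (Int.modEq_iff_dvd.2 (h 1)).symm,
    (Int.modEq_iff_dvd.2 (h 2)).symm⟩

/-- the first two parts, with the residues -/
theorem vals {y : Fin 3 → ℤ} (h : Cong tb y) :
    15552 * tA y = -(GA (y 0 ^ 2) (y 1 ^ 2) (y 2 ^ 2)) ∧
    5038848 * tB y = GB (y 0 ^ 2) (y 1 ^ 2) (y 2 ^ 2) ∧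
    tA y ≡ -467667583 [ZMOD MC] ∧ tB y ≡ 1447291062082 [ZMOD MC] := by
  obtain ⟨h0, h1, h2⟩ := cong0 h
  have hA : -(GA (y 0 ^ 2) (y 1 ^ 2) (y 2 ^ 2)) ≡ 15552 * (-467667583) [ZMOD MM] := by
    have h3 := (GA_mod (h0.pow 2) (h1.pow 2) (h2.pow 2)).neg
    rw [chk_base.1, ← mul_neg] at h3
    exact h3
  have hB : GB (y 0 ^ 2) (y 1 ^ 2) (y 2 ^ 2) ≡ 5038848 * 1447291062082 [ZMOD MM] := by
    have h3 := GB_mod (h0.pow 2) (h1.pow 2) (h2.pow 2)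
    rw [chk_base.2] at h3
    exact h3
  obtain ⟨a1, a2⟩ := divd (e := 324) (by norm_num) (by norm_num) hA
  obtain ⟨b1, b2⟩ := divd (e := 1) (by norm_num) (by norm_num) hB
  exact ⟨a1, b1, a2, b2⟩

end S46

open S46 in
/-- row CERTT -/
theorem st_CERTT46 (hR : Pool.Agent.Helper97.RK.ST_RANK) : ST_CERTT := by
  intro y hy
  obtain ⟨eA, eB, hA, hB⟩ := vals hy
  obtain ⟨h0, h1, h2⟩ := cong0 hy
  have hd23 : ((23 : ℕ) : ℤ) ∣ MC := dvd_MC (by norm_num) (by norm_num)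
  have hd13 : ((13 : ℕ) : ℤ) ∣ MC := dvd_MC (by norm_num) (by norm_num)
  have hdisc : 4 * tA y ^ 3 + 27 * tB y ^ 2 ≠ 0 := by
    intro h
    have h3 : 4 * tA y ^ 3 + 27 * tB y ^ 2 ≡
        4 * (-467667583) ^ 3 + 27 * 1447291062082 ^ 2 [ZMOD 23] :=
      (((Int.ModEq.refl 4).mul ((hA.of_dvd hd23).pow 3)).add
        ((Int.ModEq.refl 27).mul ((hB.of_dvd hd23).pow 2)))
    rw [h] at h3
    revert h3
    decide
  have hA0 : tA y ≠ 0 := by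
    intro h
    have h3 : tA y ≡ -467667583 [ZMOD 13] := hA.of_dvd hd13
    rw [h] at h3
    revert h3
    decide
  have h23 : ∀ t : ZMod 23, t ^ 3 + (tA y : ZMod 23) * t + (tB y : ZMod 23) ≠ 0 := by
    intro t
    rw [cz 23 hd23 hA, cz 23 hd23 hB]
    exact noroot t
  refine ⟨eA, eB, hA0, hdisc, ?_, ?_⟩
  · intro q hq hq1 hdv
    obtain ⟨ha, hb⟩ := hdv
    have hqM : (q : ℤ) ∣ MC := dvd_MC hq hq1
    have ha' : (q : ℤ) ∣ -467667583 := (hA.of_dvd hqM).dvd_iff.1 ha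
    have hb' : (q : ℤ) ∣ 1447291062082 := (hB.of_dvd hqM).dvd_iff.1 hb
    have h1' : (q : ℤ) ∣ 1 := by
      have e2 : IsCoprime (-467667583 : ℤ) 1447291062082 := by
        rw [Int.isCoprime_iff_gcd_eq_one]
        norm_num
      obtain ⟨a, b, hab⟩ := e2
      rw [← hab]
      exact dvd_add (ha'.mul_left a) (hb'.mul_left b)
    have h2' : q ∣ 1 := by exact_mod_cast h1'
    exact hq.one_lt.ne' (Nat.dvd_one.1 h2')
  · have hP : ∀ i, 216 * (PP (y 0) (y 1) (y 2) i / 216) = PP (y 0) (y 1) (y 2) i ∧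
        PP (y 0) (y 1) (y 2) i / 216 ≡ XX i [ZMOD MC] := by
      intro i
      refine divd (e := 23328) (by norm_num) (by norm_num) ?_
      rw [← PP_val]
      exact PP_mod h0 h1 h2 i
    have hY : ∀ i, ∃ Y : ℤ, Y ^ 2 = (PP (y 0) (y 1) (y 2) i / 216) ^ 3 +
        tA y * (PP (y 0) (y 1) (y 2) i / 216) + tB y := fun i =>
      onc (hP i).1 eA eB (ident _ _ _ i)
    choose Y hY using hY
    refine hR 7 _ _ (fun i => PP (y 0) (y 1) (y 2) i / 216) Y hY hdisc 23 h23 ?_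
    intro S hS
    exact stepAll 7 _ _ _ XX hA hB (fun i => (hP i).2) S (dec7 S hS)

end Pool.Helper66.R7
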